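import Mathlib
import Pool.Agent.TRP.RES2
import Pool.Agent.TRP.EX
import Pool.Agent.TRS.Fin

/-!
The conjecture of Birch and Swinnerton-Dyer modulo 2 (in all ranks; with the complete 2-part of the strong
conjecture whenever the predicted value is odd) for the elliptic curves with complex multiplication by the ring of
integers of `ℚ(√-7)` which are isomorphic to `X₀(49)` at the primes above `2`, over totally real fields `L` of odd
degree in which `2` and `7` are inert and over `M = L(√-7)`; no condition on the bad primes. A positive proportion of
all curves with complex multiplication by this ring over `L`, and over `M`, satisfies the conjecture on the rank and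
its `2`-part.
-/

set_option autoImplicit false

open NumberField Polynomial IsDedekindDomain XTR XTS XTB TRB Filter Topology
open scoped Classical

namespace Pool.Agent.Results.MP_9ab903_nt.AllPrimes

/-- `L` is a totally real number field of odd degree and odd narrow class number, in which `2` and `7` are inert. -/
structure OddAdmissible (L : Type) [Field L] [NumberField L] : Prop where
  /-- `L` is totally real, `7` is inert, the narrow class number is odd -/
  adm : Admissible L
  /-- `2` is inert -/
  two : (Ideal.span {(2 : 𝓞 L)}).IsPrime
  /-- the degree is odd -/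
  odd : Odd (Module.finrank ℚ L)

/-- Clause (a) for a curve `E` over `L`. -/
def PartA {L : Type} [Field L] [NumberField L] (E : WeierstrassCurve L) : Prop :=
  ModTwo E ∧ ∀ (M : Type) [Field M] [NumberField M] [Algebra L M], Module.finrank L M = 2 →
    (∃ r : M, r ^ 2 = -7) → TwoCurve (E.baseChange M) ∧ (FiniteSha E ↔ FiniteSha (E.baseChange M))

/-- Clause (b) for a curve `E` over `M`: let `w ^ 2 = w - 2`, and let `T` be the set of the bad prime ideals of `E`.
Each `P ∈ T` has an odd power generated by an element `p P` which is a square modulo `w ^ 2`. `T` is not empty, and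
for each `R ∈ T`: `FiniteSha E` holds if and only if the determinant modulo `2` of the reduced Laplacian with root `R`
does not vanish (the number of the spanning trees oriented towards `R` is odd) for the following directed graph:
vertices `T`, an edge from `P` to `Q` iff `p Q` is not a square modulo `P`. -/
def PartB {M : Type} [Field M] [NumberField M] (E : WeierstrassCurve M) : Prop :=
  (∀ w : 𝓞 M, w ^ 2 = w - 2 →
    ∃ (T : Finset (HeightOneSpectrum (𝓞 M))) (p : HeightOneSpectrum (𝓞 M) → 𝓞 M),
      (∀ P, P ∈ T ↔ ¬ GoodReduction E P) ∧ ∀ P ∈ T, Normalised w P (p P)) ∧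
  ∀ (w : 𝓞 M) (T : Finset (HeightOneSpectrum (𝓞 M))) (p : HeightOneSpectrum (𝓞 M) → 𝓞 M), w ^ 2 = w - 2 →
    (∀ P, P ∈ T ↔ ¬ GoodReduction E P) → (∀ P ∈ T, Normalised w P (p P)) →
    T.Nonempty ∧ ∀ R ∈ T, (FiniteSha E ↔ (dlap T p R).det ≠ 0)

/-- Clause (c) with the limit `l`, for `K = L` and for `K = M`. Order the isomorphism classes of the elliptic curves
over `K` with `j`-invariant `-3375` by the product of the norms of the bad prime ideals. There are finitely many below
each bound. A positive proportion of all of them is isomorphic to `X₀(49)` at the primes above `2` and satisfies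
`FiniteSha`. Among the curves which are isomorphic to `X₀(49)` at the primes above `2` (their number tends to
infinity) the proportion of those which satisfy `FiniteSha` tends to `l`. -/
def PartC (K : Type) [Field K] [NumberField K] (l : ℝ) : Prop :=
  (∀ X : ℕ, (cmFamily K X fun _ => True).Finite) ∧
  (∃ c : ℝ, 0 < c ∧ ∀ᶠ X : ℕ in atTop, c * (cmFamily K X fun _ => True).ncard ≤
    (cmFamily K X fun E => TwoCurve E ∧ FiniteSha E).ncard) ∧
  Tendsto (fun X : ℕ => (cmFamily K X TwoCurve).ncard) atTop atTop ∧
  Tendsto (fun X : ℕ => ((cmFamily K X fun E => TwoCurve E ∧ FiniteSha E).ncard : ℝ) /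
    ((cmFamily K X TwoCurve).ncard : ℝ)) atTop (𝓝 l)

/-- Examples: `ℚ`, the cubic field `ℚ(a)`, `a³ - 3a + 1 = 0`, and the quintic field `ℚ(a)`,
`a⁵ - 5a³ - a² + 3a + 1 = 0`, whose Galois group is not solvable. -/
def PartD : Prop :=
  OddAdmissible ℚ ∧
  (∀ (L : Type) [Field L] [NumberField L], Module.finrank ℚ L = 3 → (∃ a : L, a ^ 3 - 3 * a + 1 = 0) →
    OddAdmissible L) ∧
  (∀ (L : Type) [Field L] [NumberField L], Module.finrank ℚ L = 5 →
    (∃ a : L, a ^ 5 - 5 * a ^ 3 - a ^ 2 + 3 * a + 1 = 0) → OddAdmissible L) ∧
  ¬ Group.IsSolvable (X ^ 5 - 5 * X ^ 3 - X ^ 2 + 3 * X + 1 : ℚ[X]).Gal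

/-- Let `L` be a totally real number field of odd degree and odd narrow class number in which `2` and `7` are inert,
and `M = L(√-7)`. Let `K = L` or `K = M`. `TwoCurve E` means that `E` is an elliptic curve over `K` with `j`-invariant
`-3375` (complex multiplication by the ring of integers of `ℚ(√-7)`) which is isomorphic to `X₀(49)` over the
completions of `K` at the prime ideals above `2`; its other bad prime ideals are arbitrary.

`ModTwo E` is the conjecture of Birch and Swinnerton-Dyer modulo `2` for `E` over `K`: the `L`-series of `E`
extends to an entire function; the quotient `q = L(1) √|Δ(K)| |E(K)_tors|² / (Ω(E) ∏ c_v)` (which the conjecture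
asserts to be the order of the Tate–Shafarevich group if `E(K)` is finite, and `0` otherwise) is a rational number
with odd denominator; and `q` is odd if and only if `FiniteSha E`, that is, `E(K)` is finite and the
Tate–Shafarevich group has no element of order `2`.

* (`PartA`) If `TwoCurve E` over `L`, then `ModTwo E`; `E` over `M` satisfies `TwoCurve`, and `FiniteSha` holds for `E`
  over `L` iff it holds over `M`.
* If `TwoCurve E` over `M` (`E` is not necessarily defined over `L`), then `ModTwo E`, and (`PartB`): with `w ^ 2 = w - 2`
  and `T` the set of the bad prime ideals of `E`, each `P ∈ T` has an odd power generated by an element `p P` which is a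
  square modulo `w ^ 2`; `T` is not empty; and for each `R ∈ T`, `FiniteSha E` holds iff the determinant modulo `2` of the
  reduced Laplacian with root `R` does not vanish for the directed graph with vertices `T` and an edge from `P` to `Q`
  iff `p Q` is not a square modulo `P`.
* (`PartC`) Order the isomorphism classes of the elliptic curves over `K` with `j`-invariant `-3375` by the product of
  the norms of the bad prime ideals. A positive proportion of ALL of them satisfies `TwoCurve` and `FiniteSha` (and so
  the conjecture of Birch and Swinnerton-Dyer on the rank and the complete `2`-part of the strong conjecture, see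
  below). Among those which satisfy `TwoCurve` the proportion of those which satisfy `FiniteSha` tends to a limit: for
  `K = L` to `(1/4) ∏ (1 - 2 ^ (1 - 2 k)) = 0.104…`, for `K = M` to `∏ (1 - 2 ^ (-k)) = 0.288…`, the products over
  `k ≥ 1`.
* If `ModTwo E` and `FiniteSha E`, then (`TwoPartRankZero E`) the order of vanishing of the `L`-function at `1` and the
  rank of `E(K)` are `0`, the Tate–Shafarevich group has no nonzero element of `2`-power order, and the quotient
  `q` is a nonzero rational number with `2`-adic valuation `0`.
* (`PartD`) `ℚ` and the fields `ℚ(a)` with `a³ - 3a + 1 = 0` or `a⁵ - 5a³ - a² + 3a + 1 = 0` are such fields `L`; the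
  Galois group of the second polynomial is not solvable. -/
theorem result :
    (∀ (L : Type) [Field L] [NumberField L], OddAdmissible L →
      (∀ E : WeierstrassCurve L, TwoCurve E → PartA E) ∧
      PartC L (1 / 4 * ∏' k : ℕ, (1 - 1 / 2 ^ (2 * k + 1))) ∧
      ∀ (M : Type) [Field M] [NumberField M] [Algebra L M], Module.finrank L M = 2 →
        (∃ r : M, r ^ 2 = -7) → (∀ E : WeierstrassCurve M, TwoCurve E → ModTwo E ∧ PartB E) ∧
          PartC M (∏' k : ℕ, (1 - 1 / 2 ^ (k + 1)))) ∧
    (∀ (K : Type) [Field K] [NumberField K] (E : WeierstrassCurve K), ModTwo E → FiniteSha E →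
      SBSD2.TwoPartRankZero E) ∧
    PartD :=
  ⟨fun _ _ _ hL => ⟨fun _ hE => two_L hL.adm hL.two hL.odd hE, two_densityL hL.adm hL.two hL.odd,
      fun _ _ _ _ hM hr => ⟨fun _ hE => two_sqrt hL.adm hL.two hL.odd hM hr hE,
        two_density hL.adm hL.two hL.odd hM hr⟩⟩,
    fun _ _ _ _ h hS => h.twoPart hS,
    ⟨⟨XTS.families.1, TRP.two_Q, by rw [Module.finrank_self]; exact odd_one⟩,
      fun L _ _ h3 ha => ⟨(TRP.cubic_adm L h3 ha).1, (TRP.cubic_adm L h3 ha).2, by rw [h3]; decide⟩,
      fun L _ _ h5 ha => ⟨XTS.families.2.1 L h5 ha, TRP.quintic_two L h5 ha, by rw [h5]; decide⟩,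
      XTS.families.2.2.1⟩⟩

end Pool.Agent.Results.MP_9ab903_nt.AllPrimes
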