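import Mathlib
import Pool.Agent.TRP.RES2
import Pool.Agent.TRP.EX
import Pool.Agent.TRS.Fin

/-!
The Birch and Swinnerton-Dyer rank conjecture (rank = order of vanishing) for the elliptic curves with complex
multiplication by the ring of integers of `ℚ(√-7)` which are isomorphic to `X₀(49)` at the primes above `2`, over
totally real fields `L` of odd degree in which `2` and `7` are inert and over `M = L(√-7)`, whenever there is no
nonzero `2`-torsion class in the Tate–Shafarevich group; no condition on the bad primes. A positive proportion of all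
curves with complex multiplication by this ring over `L`, and over `M`, satisfies the rank conjecture.
-/

set_option autoImplicit false

open NumberField Polynomial IsDedekindDomain XTR XTS XTB TRB Filter Topology
open scoped Classical

namespace Pool.Agent.Results.MP_ae0bd0_nt.AllPrimes

/-- `L` is a totally real number field of odd degree and odd narrow class number, in which `2` and `7` are inert. -/
structure OddAdmissible (L : Type) [Field L] [NumberField L] : Prop where
  /-- `L` is totally real, `7` is inert, the narrow class number is odd -/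
  adm : Admissible L
  /-- `2` is inert -/
  two : (Ideal.span {(2 : 𝓞 L)}).IsPrime
  /-- the degree is odd -/
  odd : Odd (Module.finrank ℚ L)

/-- The rank conjecture, with rank `0`, for the elliptic curve `E` over `F`: Mathlib's `L`-series of `E`
converges absolutely for `Re s > 3/2` and extends to an entire function `Λ`, and the order of vanishing
of `Λ` at `s = 1` and the rank of `E` are both `0`. -/
def RankZero {F : Type} [Field F] [NumberField F] (E : WeierstrassCurve F) : Prop :=
  E.IsElliptic ∧ ∃ Λ : ℂ → ℂ, Differentiable ℂ Λ ∧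
    (∀ s : ℂ, 3 / 2 < s.re →
      LSeriesSummable (fun k => (E.LFunction k : ℂ)) s ∧ Λ s = E.LSeries s) ∧
    analyticOrderAt Λ 1 = Module.finrank ℤ E.toAffine.Point ∧
    Λ 1 ≠ 0 ∧ Finite E.toAffine.Point

/-- Mathlib's `L`-series of `E` converges absolutely for `Re s > 3/2` and extends to an entire function, and
if `E(F)` is finite and the Tate–Shafarevich group of `E` has no element of order `2`, then the order of vanishing
of this function at `1` and the rank of `E` are both `0`. -/
def TwoConverse {F : Type} [Field F] [NumberField F] (E : WeierstrassCurve F) : Prop :=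
  E.IsElliptic ∧ (∃ Λ : ℂ → ℂ, Differentiable ℂ Λ ∧ ∀ s : ℂ, 3 / 2 < s.re →
    LSeriesSummable (fun k => (E.LFunction k : ℂ)) s ∧ Λ s = E.LSeries s) ∧
  (FiniteSha E → RankZero E)

/-- Clause (a) for a curve `E` over `L`. -/
def PartA {L : Type} [Field L] [NumberField L] (E : WeierstrassCurve L) : Prop :=
  TwoConverse E ∧ ∀ (M : Type) [Field M] [NumberField M] [Algebra L M], Module.finrank L M = 2 →
    (∃ r : M, r ^ 2 = -7) → TwoCurve (E.baseChange M) ∧ (FiniteSha E ↔ FiniteSha (E.baseChange M))

/-- Clause (b) for a curve `E` over `M`: let `w ^ 2 = w - 2`, and let `T` be the set of the bad prime ideals of `E`.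
Each `P ∈ T` has an odd power generated by an element `p P` which is a square modulo `w ^ 2`. `T` is not empty, and
for each `R ∈ T`: `FiniteSha E` holds if and only if the determinant modulo `2` of the reduced Laplacian with root `R`
does not vanish (the number of the spanning trees oriented towards `R` is odd) for the following directed graph:
vertices `T`, an edge from `P` to `Q` iff `p Q` is not a square modulo `P`. -/
def PartB {M : Type} [Field M] [NumberField M] (E : WeierstrassCurve M) : Prop :=
  (∀ w : 𝓞 M, w ^ 2 = w - 2 →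
    ∃ (T : Finset (HeightOneSpectrum (𝓞 M))) (p : HeightOneSpectrum (𝓞 M) → 𝓞 M),
      (∀ P, P ∈ T ↔ ¬ GoodReduction E P) ∧ ∀ P ∈ T, Normalised w P (p P)) ∧
  ∀ (w : 𝓞 M) (T : Finset (HeightOneSpectrum (𝓞 M))) (p : HeightOneSpectrum (𝓞 M) → 𝓞 M), w ^ 2 = w - 2 →
    (∀ P, P ∈ T ↔ ¬ GoodReduction E P) → (∀ P ∈ T, Normalised w P (p P)) →
    T.Nonempty ∧ ∀ R ∈ T, (FiniteSha E ↔ (dlap T p R).det ≠ 0)

/-- Clause (c) with the limit `l`, for `K = L` and for `K = M`. Order the isomorphism classes of the elliptic curves
over `K` with `j`-invariant `-3375` by the product of the norms of the bad prime ideals. There are finitely many below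
each bound. A positive proportion of all of them satisfies `RankZero` (and is isomorphic to `X₀(49)` at the primes
above `2` and satisfies `FiniteSha`). Among the curves which are isomorphic to `X₀(49)` at the primes above `2` (their
number tends to infinity) the proportion of those which satisfy `FiniteSha` and `RankZero` tends to `l`. -/
def PartC (K : Type) [Field K] [NumberField K] (l : ℝ) : Prop :=
  (∀ X : ℕ, (cmFamily K X fun _ => True).Finite) ∧
  (∃ c : ℝ, 0 < c ∧ ∀ᶠ X : ℕ in atTop, c * (cmFamily K X fun _ => True).ncard ≤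
    (cmFamily K X fun E => TwoCurve E ∧ FiniteSha E ∧ RankZero E).ncard) ∧
  Tendsto (fun X : ℕ => (cmFamily K X TwoCurve).ncard) atTop atTop ∧
  Tendsto (fun X : ℕ => ((cmFamily K X fun E => TwoCurve E ∧ FiniteSha E ∧ RankZero E).ncard : ℝ) /
    ((cmFamily K X TwoCurve).ncard : ℝ)) atTop (𝓝 l)

/-- Examples: `ℚ`, the cubic field `ℚ(a)`, `a³ - 3a + 1 = 0`, and the quintic field `ℚ(a)`,
`a⁵ - 5a³ - a² + 3a + 1 = 0`, whose Galois group is not solvable. -/
def PartD : Prop :=
  OddAdmissible ℚ ∧
  (∀ (L : Type) [Field L] [NumberField L], Module.finrank ℚ L = 3 → (∃ a : L, a ^ 3 - 3 * a + 1 = 0) →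
    OddAdmissible L) ∧
  (∀ (L : Type) [Field L] [NumberField L], Module.finrank ℚ L = 5 →
    (∃ a : L, a ^ 5 - 5 * a ^ 3 - a ^ 2 + 3 * a + 1 = 0) → OddAdmissible L) ∧
  ¬ Group.IsSolvable (X ^ 5 - 5 * X ^ 3 - X ^ 2 + 3 * X + 1 : ℚ[X]).Gal

theorem rankZero_of {F : Type} [Field F] [NumberField F] {E : WeierstrassCurve F}
    (h : SBSD2.TwoPartRankZero E) : RankZero E := by
  obtain ⟨hell, hfin, Λ, hΛ, ho, h0, -⟩ := h
  exact ⟨hell, Λ, hΛ.1, hΛ.2, ho, h0, hfin⟩

theorem twoConverse_of {F : Type} [Field F] [NumberField F] {E : WeierstrassCurve F}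
    (h : ModTwo E) : TwoConverse E := by
  refine ⟨h.1, ?_, fun hS => rankZero_of (h.twoPart hS)⟩
  obtain ⟨-, Z, hZ, -⟩ := h
  exact ⟨Z, hZ.1, hZ.2⟩

theorem family_eq {K : Type} [Field K] [NumberField K]
    (h : ∀ E : WeierstrassCurve K, TwoCurve E → TwoConverse E) :
    (fun E : WeierstrassCurve K => TwoCurve E ∧ FiniteSha E) =
      fun E : WeierstrassCurve K => TwoCurve E ∧ FiniteSha E ∧ RankZero E :=
  funext fun E => propext ⟨fun h1 => ⟨h1.1, h1.2, (h E h1.1).2.2 h1.2⟩, fun h1 => ⟨h1.1, h1.2.1⟩⟩

/-- Let `L` be a totally real number field of odd degree and odd narrow class number in which `2` and `7` are inert,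
and `M = L(√-7)`. Let `K = L` or `K = M`. `TwoCurve E` means that `E` is an elliptic curve over `K` with `j`-invariant
`-3375` (complex multiplication by the ring of integers of `ℚ(√-7)`) which is isomorphic to `X₀(49)` over the
completions of `K` at the prime ideals above `2`; its other bad prime ideals are arbitrary.

`TwoConverse E`: the `L`-series of `E` extends to an entire function, and if `FiniteSha E`, that is, `E(K)` is finite
and the Tate–Shafarevich group has no element of order `2`, then (`RankZero E`) its order of vanishing at `1` and the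
rank of `E` are both `0`.

* (`PartA`) If `TwoCurve E` over `L`, then `TwoConverse E`; `E` over `M` satisfies `TwoCurve`, and `FiniteSha` holds
  for `E` over `L` iff it holds over `M`.
* If `TwoCurve E` over `M` (`E` is not necessarily defined over `L`), then `TwoConverse E`, and (`PartB`): with
  `w ^ 2 = w - 2` and `T` the set of the bad prime ideals of `E`, each `P ∈ T` has an odd power generated by an element
  `p P` which is a square modulo `w ^ 2`; `T` is not empty; and for each `R ∈ T`, `FiniteSha E` holds (so `RankZero E`)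
  iff the determinant modulo `2` of the reduced Laplacian with root `R` does not vanish for the directed graph with
  vertices `T` and an edge from `P` to `Q` iff `p Q` is not a square modulo `P`.
* (`PartC`) Order the isomorphism classes of the elliptic curves over `K` with `j`-invariant `-3375` by the product of
  the norms of the bad prime ideals. A positive proportion of ALL of them satisfies the rank conjecture, with rank
  `0` (and `TwoCurve` and `FiniteSha`). Among those which satisfy `TwoCurve` the proportion of those which satisfy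
  `FiniteSha` (and so `RankZero`) tends to a limit: for `K = L` to `(1/4) ∏ (1 - 2 ^ (1 - 2 k)) = 0.104…`, for
  `K = M` to `∏ (1 - 2 ^ (-k)) = 0.288…`, the products over `k ≥ 1`.
* (`PartD`) `ℚ` and the fields `ℚ(a)` with `a³ - 3a + 1 = 0` or `a⁵ - 5a³ - a² + 3a + 1 = 0` are such fields `L`; the
  Galois group of the second polynomial is not solvable. -/
theorem result :
    (∀ (L : Type) [Field L] [NumberField L], OddAdmissible L →
      (∀ E : WeierstrassCurve L, TwoCurve E → PartA E) ∧
      PartC L (1 / 4 * ∏' k : ℕ, (1 - 1 / 2 ^ (2 * k + 1))) ∧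
      ∀ (M : Type) [Field M] [NumberField M] [Algebra L M], Module.finrank L M = 2 →
        (∃ r : M, r ^ 2 = -7) → (∀ E : WeierstrassCurve M, TwoCurve E → TwoConverse E ∧ PartB E) ∧
          PartC M (∏' k : ℕ, (1 - 1 / 2 ^ (k + 1)))) ∧
    PartD := by
  refine ⟨fun L _ _ hL => ?_, ⟨⟨XTS.families.1, TRP.two_Q, by rw [Module.finrank_self]; exact odd_one⟩,
      fun L _ _ h3 ha => ⟨(TRP.cubic_adm L h3 ha).1, (TRP.cubic_adm L h3 ha).2, by rw [h3]; decide⟩,
      fun L _ _ h5 ha => ⟨XTS.families.2.1 L h5 ha, TRP.quintic_two L h5 ha, by rw [h5]; decide⟩,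
      XTS.families.2.2.1⟩⟩
  have hL' : ∀ E : WeierstrassCurve L, TwoCurve E → PartA E := fun E hE => by
    obtain ⟨h1, h2⟩ := two_L hL.adm hL.two hL.odd hE
    exact ⟨twoConverse_of h1, h2⟩
  refine ⟨hL', ?_, fun M _ _ _ hM hr => ?_⟩
  · unfold PartC
    rw [← family_eq fun E hE => (hL' E hE).1]
    exact two_densityL hL.adm hL.two hL.odd
  · have hsq : ∀ E : WeierstrassCurve M, TwoCurve E → TwoConverse E ∧ PartB E := fun E hE => by
      obtain ⟨h1, h2⟩ := two_sqrt hL.adm hL.two hL.odd hM hr hE
      exact ⟨twoConverse_of h1, h2⟩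
    refine ⟨hsq, ?_⟩
    unfold PartC
    rw [← family_eq fun E hE => (hsq E hE).1]
    exact two_density hL.adm hL.two hL.odd hM hr

end Pool.Agent.Results.MP_ae0bd0_nt.AllPrimes
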