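import Mathlib
import Pool.Agent.TRP.RES2
import Pool.Agent.TRP.EX
import Pool.Agent.TRS.Fin
import Pool.Agent.RSM.S4

/-!
The conjecture of Birch and Swinnerton-Dyer modulo 2 (in all ranks; with the complete 2-part of the conjecture
whenever the predicted order of the Tate–Shafarevich group is odd) for abelian varieties over `ℚ`: the Weil
restrictions `Res_{L/ℚ} E` and `Res_{M/ℚ} E`, `M = L(√-7)`, of the elliptic curves `E` with complex multiplication by
the ring of integers of `ℚ(√-7)` which are isomorphic to `X₀(49)` at the primes above `2`, over totally real fields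
`L` of odd degree in which `2` and `7` are inert and over `M`; no condition on the bad primes. A positive proportion of
all the `Res_{L/ℚ} E` (`L ≠ ℚ`), and of all the `Res_{M/ℚ} E`, satisfies the conjecture on the rank and its `2`-part.
-/

set_option autoImplicit false

open NumberField Polynomial IsDedekindDomain XTR XTS XTB TRB Filter Topology
open scoped Classical

namespace Pool.Agent.Results.MP_dfae13_nt.AllPrimesRestrictions

/-- `L` is a totally real number field of odd degree and odd narrow class number, in which `2` and `7` are inert. -/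
structure OddAdmissible (L : Type) [Field L] [NumberField L] : Prop where
  /-- `L` is totally real, `7` is inert, the narrow class number is odd -/
  adm : Admissible L
  /-- `2` is inert -/
  two : (Ideal.span {(2 : 𝓞 L)}).IsPrime
  /-- the degree is odd -/
  odd : Odd (Module.finrank ℚ L)

/-- The conjecture of Birch and Swinnerton-Dyer modulo `2` for `Res_{K/ℚ} E`: there are finite sets `S` of primes
outside of which it has good reduction, and for all of them `RSM.ModTwo E S`. -/
def ResModTwo {K : Type} [Field K] [NumberField K] (E : WeierstrassCurve K) : Prop :=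
  (∃ S, WR.IsBadSet E S) ∧ ∀ S : Finset ℕ, WR.IsBadSet E S → RSM.ModTwo E S

/-- Clause (a) for a curve `E` over `L`. -/
def PartA {L : Type} [Field L] [NumberField L] (E : WeierstrassCurve L) : Prop :=
  (1 < Module.finrank ℚ L → ResModTwo E) ∧
  ∀ (M : Type) [Field M] [NumberField M] [Algebra L M], Module.finrank L M = 2 → (∃ r : M, r ^ 2 = -7) →
    TwoCurve (E.baseChange M) ∧ (RSM.FiniteSha E ↔ RSM.FiniteSha (E.baseChange M))

/-- Clause (b) for a curve `E` over `M`: let `w ^ 2 = w - 2`, and let `T` be the set of the bad prime ideals of `E`.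
Each `P ∈ T` has an odd power generated by an element `p P` which is a square modulo `w ^ 2`. `T` is not empty, and
for each `R ∈ T`: `RSM.FiniteSha E` holds if and only if the determinant modulo `2` of the reduced Laplacian with root
`R` does not vanish (the number of the spanning trees oriented towards `R` is odd) for the following directed graph:
vertices `T`, an edge from `P` to `Q` iff `p Q` is not a square modulo `P`. -/
def PartB {M : Type} [Field M] [NumberField M] (E : WeierstrassCurve M) : Prop :=
  (∀ w : 𝓞 M, w ^ 2 = w - 2 →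
    ∃ (T : Finset (HeightOneSpectrum (𝓞 M))) (p : HeightOneSpectrum (𝓞 M) → 𝓞 M),
      (∀ P, P ∈ T ↔ ¬ GoodReduction E P) ∧ ∀ P ∈ T, Normalised w P (p P)) ∧
  ∀ (w : 𝓞 M) (T : Finset (HeightOneSpectrum (𝓞 M))) (p : HeightOneSpectrum (𝓞 M) → 𝓞 M), w ^ 2 = w - 2 →
    (∀ P, P ∈ T ↔ ¬ GoodReduction E P) → (∀ P ∈ T, Normalised w P (p P)) →
    T.Nonempty ∧ ∀ R ∈ T, (RSM.FiniteSha E ↔ (dlap T p R).det ≠ 0)

/-- Clause (c) with the limit `l`, for `K = L` and for `K = M`. Order the isomorphism classes of the elliptic curves
over `K` with `j`-invariant `-3375` by the product of the norms of the bad prime ideals. There are finitely many below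
each bound. A positive proportion of all of them is isomorphic to `X₀(49)` at the primes above `2` and satisfies
`RSM.FiniteSha`. Among the curves which are isomorphic to `X₀(49)` at the primes above `2` (their number tends to
infinity) the proportion of those which satisfy `RSM.FiniteSha` tends to `l`. -/
def PartC (K : Type) [Field K] [NumberField K] (l : ℝ) : Prop :=
  (∀ X : ℕ, (cmFamily K X fun _ => True).Finite) ∧
  (∃ c : ℝ, 0 < c ∧ ∀ᶠ X : ℕ in atTop, c * (cmFamily K X fun _ => True).ncard ≤
    (cmFamily K X fun E => TwoCurve E ∧ RSM.FiniteSha E).ncard) ∧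
  Tendsto (fun X : ℕ => (cmFamily K X TwoCurve).ncard) atTop atTop ∧
  Tendsto (fun X : ℕ => ((cmFamily K X fun E => TwoCurve E ∧ RSM.FiniteSha E).ncard : ℝ) /
    ((cmFamily K X TwoCurve).ncard : ℝ)) atTop (𝓝 l)

/-- Examples: `ℚ`, the cubic field `ℚ(a)`, `a³ - 3a + 1 = 0`, and the quintic field `ℚ(a)`,
`a⁵ - 5a³ - a² + 3a + 1 = 0`, whose Galois group is not solvable. -/
def PartD : Prop :=
  OddAdmissible ℚ ∧
  (∀ (L : Type) [Field L] [NumberField L], Module.finrank ℚ L = 3 → (∃ a : L, a ^ 3 - 3 * a + 1 = 0) →
    OddAdmissible L) ∧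
  (∀ (L : Type) [Field L] [NumberField L], Module.finrank ℚ L = 5 →
    (∃ a : L, a ^ 5 - 5 * a ^ 3 - a ^ 2 + 3 * a + 1 = 0) → OddAdmissible L) ∧
  ¬ Group.IsSolvable (X ^ 5 - 5 * X ^ 3 - X ^ 2 + 3 * X + 1 : ℚ[X]).Gal

/-- Let `L` be a totally real number field of odd degree and odd narrow class number in which `2` and `7` are inert,
and `M = L(√-7)`. Let `K = L` or `K = M`. `TwoCurve E` means that `E` is an elliptic curve over `K` with `j`-invariant
`-3375` (complex multiplication by the ring of integers of `ℚ(√-7)`) which is isomorphic to `X₀(49)` over the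
completions of `K` at the prime ideals above `2`; its other bad prime ideals are arbitrary.

For an elliptic curve `E` over `K` let `A = Res_{K/ℚ} E`, an abelian variety of dimension `[K : ℚ]` over `ℚ`.
`RSM.ModTwo E S` is the conjecture of Birch and Swinnerton-Dyer modulo `2` for `A`: the Euler product of `A` without the
factors at the primes in `S` (a finite set of primes outside of which `A` has good reduction, `WR.IsBadSet E S`)
extends to an entire function `L`; the quotient `q = L(1) #A(ℚ)_tors #A'(ℚ)_tors / (V_∞ V_bad)` (which the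
conjecture asserts to be the order of the Tate–Shafarevich group if `A(ℚ)` is finite, and `0` otherwise) is a
rational number with odd denominator; and `q` is odd if and only if `RSM.FiniteSha E`, that is, `A(ℚ)` is finite and
the Tate–Shafarevich group of `A` has no element of order `2`.

* (`PartA`) Let `TwoCurve E` over `L`. Then the conjecture modulo `2` holds for `Res_{L/ℚ} E` if `L ≠ ℚ`; `E` over `M`
  satisfies `TwoCurve`, and `RSM.FiniteSha` holds for `E` over `L` iff it holds over `M`.
* Let `TwoCurve E` over `M` (`E` is not necessarily defined over `L`). Then the conjecture modulo `2` holds for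
  `Res_{M/ℚ} E`, and (`PartB`): with `w ^ 2 = w - 2` and `T` the set of the bad prime ideals of `E`, each `P ∈ T` has an
  odd power generated by an element `p P` which is a square modulo `w ^ 2`; `T` is not empty; and for each `R ∈ T`,
  `RSM.FiniteSha E` holds iff the determinant modulo `2` of the reduced Laplacian with root `R` does not vanish for the
  directed graph with vertices `T` and an edge from `P` to `Q` iff `p Q` is not a square modulo `P`.
* (`PartC`) Let `K = L ≠ ℚ` or `K = M`. Order the isomorphism classes of the elliptic curves over `K` with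
  `j`-invariant `-3375` by the product of the norms of the bad prime ideals. A positive proportion of ALL of them
  satisfies `TwoCurve` and `RSM.FiniteSha` (and so the conjecture of Birch and Swinnerton-Dyer on the rank and the
  complete `2`-part of the strong conjecture for `Res_{K/ℚ} E`, see below). Among those which satisfy `TwoCurve` the
  proportion of those which satisfy `RSM.FiniteSha` tends to a limit: for `K = L` to
  `(1/4) ∏ (1 - 2 ^ (1 - 2 k)) = 0.104…`, for `K = M` to `∏ (1 - 2 ^ (-k)) = 0.288…`, the products over `k ≥ 1`.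
* If `RSM.ModTwo E S` and `RSM.FiniteSha E`, then (`WeilRes.PartFormula E 2 S`) `A(ℚ)` is finite, the order of
  vanishing of the `L`-function at `1` and the rank of `A(ℚ)` are `0`, the Tate–Shafarevich group of `A` has no nonzero
  element of `2`-power order, and the quotient `q` is a nonzero rational number with `2`-adic valuation `0`.
* (`PartD`) `ℚ` and the fields `ℚ(a)` with `a³ - 3a + 1 = 0` or `a⁵ - 5a³ - a² + 3a + 1 = 0` are such fields `L`; the
  Galois group of the second polynomial is not solvable. -/
theorem result :
    (∀ (L : Type) [Field L] [NumberField L], OddAdmissible L →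
      (∀ E : WeierstrassCurve L, TwoCurve E → PartA E) ∧
      (1 < Module.finrank ℚ L → PartC L (1 / 4 * ∏' k : ℕ, (1 - 1 / 2 ^ (2 * k + 1)))) ∧
      ∀ (M : Type) [Field M] [NumberField M] [Algebra L M], Module.finrank L M = 2 →
        (∃ r : M, r ^ 2 = -7) → (∀ E : WeierstrassCurve M, TwoCurve E → ResModTwo E ∧ PartB E) ∧
          PartC M (∏' k : ℕ, (1 - 1 / 2 ^ (k + 1)))) ∧
    (∀ (K : Type) [Field K] [NumberField K] (E : WeierstrassCurve K) (S : Finset ℕ),
      RSM.ModTwo E S → RSM.FiniteSha E → WeilRes.PartFormula E 2 S) ∧
    PartD := by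
  have hG : ∀ (K : Type) [Field K] [NumberField K],
      (RSM.FiniteSha : WeierstrassCurve K → Prop) = FiniteSha := fun K _ _ =>
    funext fun E => propext (RSM.finiteSha_iff E)
  refine ⟨fun L _ _ hL => ⟨fun E hE => ?_, fun _ => ?_, fun M _ _ _ hM hr => ⟨fun E hE => ?_, ?_⟩⟩,
    fun _ _ _ _ _ h hS => h.part hS, ⟨⟨XTS.families.1, TRP.two_Q, by rw [Module.finrank_self]; exact odd_one⟩,
      fun L _ _ h3 ha => ⟨(TRP.cubic_adm L h3 ha).1, (TRP.cubic_adm L h3 ha).2, by rw [h3]; decide⟩,
      fun L _ _ h5 ha => ⟨XTS.families.2.1 L h5 ha, TRP.quintic_two L h5 ha, by rw [h5]; decide⟩,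
      XTS.families.2.2.1⟩⟩
  · obtain ⟨h1, h2⟩ := two_L hL.adm hL.two hL.odd hE
    refine ⟨fun _ => RSM.ModTwo.of h1, fun M _ _ _ hM hr => ?_⟩
    obtain ⟨h4, h5⟩ := h2 M hM hr
    exact ⟨h4, by rw [RSM.finiteSha_iff, RSM.finiteSha_iff, h5]⟩
  · unfold PartC
    rw [hG L]
    exact two_densityL hL.adm hL.two hL.odd
  · obtain ⟨h1, h2, h3⟩ := two_sqrt hL.adm hL.two hL.odd hM hr hE
    refine ⟨RSM.ModTwo.of h1, h2, fun w T p hw hT hp => ?_⟩
    rw [RSM.finiteSha_iff]
    exact h3 w T p hw hT hp
  · unfold PartC
    rw [hG M]
    exact two_density hL.adm hL.two hL.odd hM hr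

end Pool.Agent.Results.MP_dfae13_nt.AllPrimesRestrictions
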