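import Mathlib
import Pool.Agent.TRZ.RES
import Pool.Agent.TRZ.CRIT
import Pool.Agent.TRR.RES
import Pool.Agent.TRP.EX
import Pool.Agent.TRS.Fin

/-!
The conjecture of Birch and Swinnerton-Dyer modulo 2 (in all ranks; with the complete 2-part of the strong
conjecture whenever the predicted value is odd) for the elliptic curves with complex multiplication by the ring of
integers of `ℚ(√-7)` over totally real fields `L` of odd degree in which `2` and `7` are inert and over `M = L(√-7)`
which have bad reduction or are isomorphic to `X₀(49)` at each prime above `2`; no condition on the other bad primes.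
These are at least 80% of all curves with complex multiplication by this ring over `L`, and 64% over `M`.
-/

set_option autoImplicit false

open NumberField Polynomial IsDedekindDomain XTR XTS XTB TRB Filter Topology
open scoped Classical

namespace Pool.Agent.Results.MP_9ab903_nt.AllTwists

/-- `L` is a totally real number field of odd degree and odd narrow class number, in which `2` and `7` are inert. -/
structure OddAdmissible (L : Type) [Field L] [NumberField L] : Prop where
  /-- `L` is totally real, `7` is inert, the narrow class number is odd -/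
  adm : Admissible L
  /-- `2` is inert -/
  two : (Ideal.span {(2 : 𝓞 L)}).IsPrime
  /-- the degree is odd -/
  odd : Odd (Module.finrank ℚ L)

/-- Clause (a) for a curve `E` over `L`. -/
def PartA {L : Type} [Field L] [NumberField L] (E : WeierstrassCurve L) : Prop :=
  ModTwo E ∧ ∀ (M : Type) [Field M] [NumberField M] [Algebra L M], Module.finrank L M = 2 →
    (∃ r : M, r ^ 2 = -7) → GenCurve (E.baseChange M) ∧ (FiniteSha E ↔ FiniteSha (E.baseChange M))

/-- Clause (b) for a curve `E` over `M`. Let `w ^ 2 = w - 2`. Then (`Twist E w κ T p`) `E` is the quadratic twist of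
`X₀(49)` by some `d`, such that `d (1 - 2 w) = κ ∏ p P` up to squares, the product over `P ∈ T`, a finite set of prime
ideals not above `2`, where `p P` generates an odd power of `P` and is a square modulo `w ^ 2`, and
`κ = u (w - 1) ^ i (-w) ^ j`, `u` a unit, `i, j ∈ {0, 1}`. Whenever this is so, `T` is the set of the bad prime ideals of
`E` not above `2`, and `FiniteSha E` holds if and only if the determinant modulo `2` of the matrix `tmat T p w κ` does
not vanish, whose rows and columns are indexed by `T` and whose entries are given by the quadratic residue symbols of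
the `p Q`, of `κ`, `w - 1` and `-w` modulo the `P ∈ T`. -/
def PartB {M : Type} [Field M] [NumberField M] (E : WeierstrassCurve M) : Prop :=
  ∀ w : 𝓞 M, w ^ 2 = w - 2 →
    (∃ (κ : 𝓞 M) (T : Finset (HeightOneSpectrum (𝓞 M))) (p : HeightOneSpectrum (𝓞 M) → 𝓞 M), Twist E w κ T p) ∧
    ∀ (κ : 𝓞 M) (T : Finset (HeightOneSpectrum (𝓞 M))) (p : HeightOneSpectrum (𝓞 M) → 𝓞 M), Twist E w κ T p →
      (∀ P : HeightOneSpectrum (𝓞 M), (2 : 𝓞 M) ∉ P.asIdeal → (P ∈ T ↔ ¬ GoodReduction E P)) ∧
      (FiniteSha E ↔ (tmat T p w κ).det ≠ 0)

/-- Clause (c) with the limits `k` and `l`. Order the isomorphism classes of the elliptic curves over `K` with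
`j`-invariant `-3375` by the product of the norms of the bad prime ideals. There are finitely many below each bound.
The number of those which satisfy `GenCurve` tends to infinity, and their proportion among all tends to `k`; the
proportion of those which also satisfy `FiniteSha` among them tends to `l`. -/
def PartC (K : Type) [Field K] [NumberField K] (k l : ℝ) : Prop :=
  (∀ X : ℕ, (cmFamily K X fun _ => True).Finite) ∧
  Tendsto (fun X : ℕ => (cmFamily K X GenCurve).ncard) atTop atTop ∧
  Tendsto (fun X : ℕ => ((cmFamily K X GenCurve).ncard : ℝ) / ((cmFamily K X fun _ => True).ncard : ℝ))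
    atTop (𝓝 k) ∧
  Tendsto (fun X : ℕ => ((cmFamily K X fun E => GenCurve E ∧ FiniteSha E).ncard : ℝ) /
    ((cmFamily K X GenCurve).ncard : ℝ)) atTop (𝓝 l)

/-- Examples: `ℚ`, the cubic field `ℚ(a)`, `a³ - 3a + 1 = 0`, and the quintic field `ℚ(a)`,
`a⁵ - 5a³ - a² + 3a + 1 = 0`, whose Galois group is not solvable. -/
def PartD : Prop :=
  OddAdmissible ℚ ∧
  (∀ (L : Type) [Field L] [NumberField L], Module.finrank ℚ L = 3 → (∃ a : L, a ^ 3 - 3 * a + 1 = 0) →
    OddAdmissible L) ∧
  (∀ (L : Type) [Field L] [NumberField L], Module.finrank ℚ L = 5 →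
    (∃ a : L, a ^ 5 - 5 * a ^ 3 - a ^ 2 + 3 * a + 1 = 0) → OddAdmissible L) ∧
  ¬ Group.IsSolvable (X ^ 5 - 5 * X ^ 3 - X ^ 2 + 3 * X + 1 : ℚ[X]).Gal

/-- Let `L` be a totally real number field of odd degree `g` and odd narrow class number in which `2` and `7` are
inert, and `M = L(√-7)`. Let `K = L` or `K = M`. `GenCurve E` means that `E` is an elliptic curve over `K` with
`j`-invariant `-3375` (complex multiplication by the ring of integers of `ℚ(√-7)`) which at each prime ideal above `2`
has bad reduction or is isomorphic to `X₀(49)` over the completion; the other bad prime ideals of `E` are arbitrary.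
(So the only curves with complex multiplication by this ring which are excluded are those which at a prime above `2`
have good reduction and are the unramified quadratic twist of `X₀(49)`.)

`ModTwo E` is the conjecture of Birch and Swinnerton-Dyer modulo `2` for `E` over `K`: the `L`-series of `E`
extends to an entire function; the quotient `q = L(1) √|Δ(K)| |E(K)_tors|² / (Ω(E) ∏ c_v)` (which the conjecture
asserts to be the order of the Tate–Shafarevich group if `E(K)` is finite, and `0` otherwise) is a rational number
with odd denominator; and `q` is odd if and only if `FiniteSha E`, that is, `E(K)` is finite and the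
Tate–Shafarevich group has no element of order `2`.

* (`PartA`) If `GenCurve E` over `L`, then `ModTwo E`; `E` over `M` satisfies `GenCurve`, and `FiniteSha` holds for `E`
  over `L` iff it holds over `M`.
* If `GenCurve E` over `M` (`E` is not necessarily defined over `L`), then `ModTwo E`.
* (`PartC`) Order the isomorphism classes of the elliptic curves over `K` with `j`-invariant `-3375` by the product of
  the norms of the bad prime ideals. The proportion of those which satisfy `GenCurve` among ALL of them tends to
  `1 - 1/(6 - 2 ^ (1 - g)) ≥ 0.8` for `K = L` and to its square for `K = M`. Among those which satisfy `GenCurve` the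
  proportion of those which satisfy `FiniteSha` (and so the conjecture of Birch and Swinnerton-Dyer on the rank and the
  complete `2`-part of the strong conjecture, see below) tends to a limit: for `K = L` to
  `(1/4) ∏ (1 - 2 ^ (1 - 2 k)) = 0.104…`, for `K = M` to `∏ (1 - 2 ^ (-k)) = 0.288…`, the products over `k ≥ 1`.
* (`PartB`) Let `GenCurve E` over `M` and `w ^ 2 = w - 2`. `E` is the quadratic twist of `X₀(49)` by some `d` with
  `d (1 - 2 w) = κ ∏ p P` up to squares, the product over `P ∈ T`, a finite set of prime ideals not above `2`, where `p P`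
  generates an odd power of `P` and is a square modulo `w ^ 2`, and `κ = u (w - 1) ^ i (-w) ^ j`, `u` a unit,
  `i, j ∈ {0, 1}` (`Twist E w κ T p`); and whenever this is so, `T` is the set of the bad prime ideals of `E` not above
  `2`, and `FiniteSha E` holds iff `det N ≠ 0` for the matrix `N` modulo `2` with the entries
  `[p Q / P] + [(w - 1) / P] [-w / Q]` for `P ≠ Q` and `[κ / P] + ∑ [p Q / P] + [(w - 1) / P] [-w / P]` (the sum over
  `Q ≠ P`) for `P = Q`, where `[a / P]` is `0` if `a` is a square modulo `P` and `1` otherwise (`tmat T p w κ`).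
* If `ModTwo E` and `FiniteSha E`, then (`TwoPartRankZero E`) the order of vanishing of the `L`-function at `1` and the
  rank of `E(K)` are `0`, the Tate–Shafarevich group has no nonzero element of `2`-power order, and the quotient
  `q` is a nonzero rational number with `2`-adic valuation `0`.
* (`PartD`) `ℚ` and the fields `ℚ(a)` with `a³ - 3a + 1 = 0` or `a⁵ - 5a³ - a² + 3a + 1 = 0` are such fields `L`; the
  Galois group of the second polynomial is not solvable. -/
theorem result :
    (∀ (L : Type) [Field L] [NumberField L], OddAdmissible L →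
      (∀ E : WeierstrassCurve L, GenCurve E → PartA E) ∧
      PartC L (1 - 1 / (6 - 2 / 2 ^ Module.finrank ℚ L)) (1 / 4 * ∏' k : ℕ, (1 - 1 / 2 ^ (2 * k + 1))) ∧
      ∀ (M : Type) [Field M] [NumberField M] [Algebra L M], Module.finrank L M = 2 →
        (∃ r : M, r ^ 2 = -7) →
          (∀ E : WeierstrassCurve M, GenCurve E → ModTwo E ∧ PartB E) ∧
          PartC M ((1 - 1 / (6 - 2 / 2 ^ Module.finrank ℚ L)) ^ 2) (∏' k : ℕ, (1 - 1 / 2 ^ (k + 1)))) ∧
    (∀ (K : Type) [Field K] [NumberField K] (E : WeierstrassCurve K), ModTwo E → FiniteSha E →
      SBSD2.TwoPartRankZero E) ∧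
    PartD :=
  ⟨fun _ _ _ hL => ⟨fun _ hE => gen_L hL.adm hL.two hL.odd hE, gen_densityL hL.adm hL.two hL.odd,
      fun _ _ _ _ hM hr => ⟨fun _ hE => ⟨gen_modTwo hL.adm hL.two hL.odd hM hr hE,
        fun w hw => gen_crit hL.adm hL.two hL.odd hM hr hE hw⟩, gen_density hL.adm hL.two hL.odd hM hr⟩⟩,
    fun _ _ _ _ h hS => h.twoPart hS,
    ⟨⟨XTS.families.1, TRP.two_Q, by rw [Module.finrank_self]; exact odd_one⟩,
      fun L _ _ h3 ha => ⟨(TRP.cubic_adm L h3 ha).1, (TRP.cubic_adm L h3 ha).2, by rw [h3]; decide⟩,
      fun L _ _ h5 ha => ⟨XTS.families.2.1 L h5 ha, TRP.quintic_two L h5 ha, by rw [h5]; decide⟩,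
      XTS.families.2.2.1⟩⟩

end Pool.Agent.Results.MP_9ab903_nt.AllTwists
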