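import Mathlib
import Pool.Agent.TRZ.RES
import Pool.Agent.TRZ.CRIT
import Pool.Agent.TRR.RES
import Pool.Agent.TRP.EX
import Pool.Agent.TRS.Fin
import Pool.Agent.RSM.S4

/-!
The conjecture of Birch and Swinnerton-Dyer modulo 2 (in all ranks; with the complete 2-part of the conjecture
whenever the predicted order of the Tate–Shafarevich group is odd) for abelian varieties over `ℚ`: the Weil
restrictions `Res_{L/ℚ} E` and `Res_{M/ℚ} E` of the elliptic curves `E` with complex multiplication by the ring of
integers of `ℚ(√-7)` over totally real fields `L` of odd degree in which `2` and `7` are inert and over `M = L(√-7)`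
which have bad reduction or are isomorphic to `X₀(49)` at each prime above `2`; no condition on the other bad primes.
These are at least 80% of all curves with complex multiplication by this ring over `L`, and 64% over `M`.
-/

set_option autoImplicit false

open NumberField Polynomial IsDedekindDomain XTR XTS XTB TRB Filter Topology
open scoped Classical

namespace Pool.Agent.Results.MP_dfae13_nt.AllRestrictions

/-- `L` is a totally real number field of odd degree and odd narrow class number, in which `2` and `7` are inert. -/
structure OddAdmissible (L : Type) [Field L] [NumberField L] : Prop where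
  /-- `L` is totally real, `7` is inert, the narrow class number is odd -/
  adm : Admissible L
  /-- `2` is inert -/
  two : (Ideal.span {(2 : 𝓞 L)}).IsPrime
  /-- the degree is odd -/
  odd : Odd (Module.finrank ℚ L)

/-- The conjecture of Birch and Swinnerton-Dyer modulo `2` for `Res_{K/ℚ} E`: there are finite sets `S` of primes
outside of which it has good reduction, and for all of them `RSM.ModTwo E S`. -/
def ResModTwo {K : Type} [Field K] [NumberField K] (E : WeierstrassCurve K) : Prop :=
  (∃ S, WR.IsBadSet E S) ∧ ∀ S : Finset ℕ, WR.IsBadSet E S → RSM.ModTwo E S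

/-- Clause (a) for a curve `E` over `L`. -/
def PartA {L : Type} [Field L] [NumberField L] (E : WeierstrassCurve L) : Prop :=
  (1 < Module.finrank ℚ L → ResModTwo E) ∧ ∀ (M : Type) [Field M] [NumberField M] [Algebra L M], Module.finrank L M = 2 →
    (∃ r : M, r ^ 2 = -7) → GenCurve (E.baseChange M) ∧ (RSM.FiniteSha E ↔ RSM.FiniteSha (E.baseChange M))

/-- Clause (b) for a curve `E` over `M`. Let `w ^ 2 = w - 2`. Then (`Twist E w κ T p`) `E` is the quadratic twist of
`X₀(49)` by some `d`, such that `d (1 - 2 w) = κ ∏ p P` up to squares, the product over `P ∈ T`, a finite set of prime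
ideals not above `2`, where `p P` generates an odd power of `P` and is a square modulo `w ^ 2`, and
`κ = u (w - 1) ^ i (-w) ^ j`, `u` a unit, `i, j ∈ {0, 1}`. Whenever this is so, `T` is the set of the bad prime ideals of
`E` not above `2`, and `RSM.FiniteSha E` holds if and only if the determinant modulo `2` of the matrix `tmat T p w κ` does
not vanish, whose rows and columns are indexed by `T` and whose entries are given by the quadratic residue symbols of
the `p Q`, of `κ`, `w - 1` and `-w` modulo the `P ∈ T`. -/
def PartB {M : Type} [Field M] [NumberField M] (E : WeierstrassCurve M) : Prop :=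
  ∀ w : 𝓞 M, w ^ 2 = w - 2 →
    (∃ (κ : 𝓞 M) (T : Finset (HeightOneSpectrum (𝓞 M))) (p : HeightOneSpectrum (𝓞 M) → 𝓞 M), Twist E w κ T p) ∧
    ∀ (κ : 𝓞 M) (T : Finset (HeightOneSpectrum (𝓞 M))) (p : HeightOneSpectrum (𝓞 M) → 𝓞 M), Twist E w κ T p →
      (∀ P : HeightOneSpectrum (𝓞 M), (2 : 𝓞 M) ∉ P.asIdeal → (P ∈ T ↔ ¬ GoodReduction E P)) ∧
      (RSM.FiniteSha E ↔ (tmat T p w κ).det ≠ 0)

/-- Clause (c) with the limits `k` and `l`. Order the isomorphism classes of the elliptic curves over `K` with
`j`-invariant `-3375` by the product of the norms of the bad prime ideals. There are finitely many below each bound.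
The number of those which satisfy `GenCurve` tends to infinity, and their proportion among all tends to `k`; the
proportion of those which also satisfy `RSM.FiniteSha` among them tends to `l`. -/
def PartC (K : Type) [Field K] [NumberField K] (k l : ℝ) : Prop :=
  (∀ X : ℕ, (cmFamily K X fun _ => True).Finite) ∧
  Tendsto (fun X : ℕ => (cmFamily K X GenCurve).ncard) atTop atTop ∧
  Tendsto (fun X : ℕ => ((cmFamily K X GenCurve).ncard : ℝ) / ((cmFamily K X fun _ => True).ncard : ℝ))
    atTop (𝓝 k) ∧
  Tendsto (fun X : ℕ => ((cmFamily K X fun E => GenCurve E ∧ RSM.FiniteSha E).ncard : ℝ) /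
    ((cmFamily K X GenCurve).ncard : ℝ)) atTop (𝓝 l)

/-- Examples: `ℚ`, the cubic field `ℚ(a)`, `a³ - 3a + 1 = 0`, and the quintic field `ℚ(a)`,
`a⁵ - 5a³ - a² + 3a + 1 = 0`, whose Galois group is not solvable. -/
def PartD : Prop :=
  OddAdmissible ℚ ∧
  (∀ (L : Type) [Field L] [NumberField L], Module.finrank ℚ L = 3 → (∃ a : L, a ^ 3 - 3 * a + 1 = 0) →
    OddAdmissible L) ∧
  (∀ (L : Type) [Field L] [NumberField L], Module.finrank ℚ L = 5 →
    (∃ a : L, a ^ 5 - 5 * a ^ 3 - a ^ 2 + 3 * a + 1 = 0) → OddAdmissible L) ∧
  ¬ Group.IsSolvable (X ^ 5 - 5 * X ^ 3 - X ^ 2 + 3 * X + 1 : ℚ[X]).Gal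

/-- Let `L` be a totally real number field of odd degree `g` and odd narrow class number in which `2` and `7` are
inert, and `M = L(√-7)`. Let `K = L` or `K = M`. `GenCurve E` means that `E` is an elliptic curve over `K` with
`j`-invariant `-3375` (complex multiplication by the ring of integers of `ℚ(√-7)`) which at each prime ideal above `2`
has bad reduction or is isomorphic to `X₀(49)` over the completion; the other bad prime ideals of `E` are arbitrary.
(So the only curves with complex multiplication by this ring which are excluded are those which at a prime above `2`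
have good reduction and are the unramified quadratic twist of `X₀(49)`.)

For an elliptic curve `E` over `K` let `A = Res_{K/ℚ} E`, an abelian variety of dimension `[K : ℚ]` over `ℚ`.
`RSM.ModTwo E S` is the conjecture of Birch and Swinnerton-Dyer modulo `2` for `A`: the Euler product of `A` without the
factors at the primes in `S` (a finite set of primes outside of which `A` has good reduction, `WR.IsBadSet E S`)
extends to an entire function `L`; the quotient `q = L(1) #A(ℚ)_tors #A'(ℚ)_tors / (V_∞ V_bad)` (which the
conjecture asserts to be the order of the Tate–Shafarevich group if `A(ℚ)` is finite, and `0` otherwise) is a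
rational number with odd denominator; and `q` is odd if and only if `RSM.FiniteSha E`, that is, `A(ℚ)` is finite and
the Tate–Shafarevich group of `A` has no element of order `2`.

* (`PartA`) Let `GenCurve E` over `L`. Then the conjecture modulo `2` holds for `Res_{L/ℚ} E` if `L ≠ ℚ`; `E` over `M`
  satisfies `GenCurve`, and `RSM.FiniteSha` holds for `E` over `L` iff it holds over `M`.
* If `GenCurve E` over `M` (`E` is not necessarily defined over `L`), then the conjecture modulo `2` holds for
  `Res_{M/ℚ} E`.
* (`PartC`) Let `K = L ≠ ℚ` or `K = M`. Order the isomorphism classes of the elliptic curves over `K` with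
  `j`-invariant `-3375` by the product of the norms of the bad prime ideals. The proportion of those which satisfy
  `GenCurve` among ALL of them tends to `1 - 1/(6 - 2 ^ (1 - g)) ≥ 0.8` for `K = L` and to its square for `K = M`. Among
  those which satisfy `GenCurve` the proportion of those which satisfy `RSM.FiniteSha` (and so the conjecture of Birch
  and Swinnerton-Dyer on the rank and the complete `2`-part of the strong conjecture for `Res_{K/ℚ} E`, see below) tends
  to a limit: for `K = L` to `(1/4) ∏ (1 - 2 ^ (1 - 2 k)) = 0.104…`, for `K = M` to `∏ (1 - 2 ^ (-k)) = 0.288…`, the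
  products over `k ≥ 1`.
* (`PartB`) Let `GenCurve E` over `M` and `w ^ 2 = w - 2`. `E` is the quadratic twist of `X₀(49)` by some `d` with
  `d (1 - 2 w) = κ ∏ p P` up to squares, the product over `P ∈ T`, a finite set of prime ideals not above `2`, where `p P`
  generates an odd power of `P` and is a square modulo `w ^ 2`, and `κ = u (w - 1) ^ i (-w) ^ j`, `u` a unit,
  `i, j ∈ {0, 1}` (`Twist E w κ T p`); and whenever this is so, `T` is the set of the bad prime ideals of `E` not above
  `2`, and `RSM.FiniteSha E` holds iff `det N ≠ 0` for the matrix `N` modulo `2` with the entries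
  `[p Q / P] + [(w - 1) / P] [-w / Q]` for `P ≠ Q` and `[κ / P] + ∑ [p Q / P] + [(w - 1) / P] [-w / P]` (the sum over
  `Q ≠ P`) for `P = Q`, where `[a / P]` is `0` if `a` is a square modulo `P` and `1` otherwise (`tmat T p w κ`).
* If `RSM.ModTwo E S` and `RSM.FiniteSha E`, then (`WeilRes.PartFormula E 2 S`) `A(ℚ)` is finite, the order of
  vanishing of the `L`-function at `1` and the rank of `A(ℚ)` are `0`, the Tate–Shafarevich group of `A` has no nonzero
  element of `2`-power order, and the quotient `q` is a nonzero rational number with `2`-adic valuation `0`.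
* (`PartD`) `ℚ` and the fields `ℚ(a)` with `a³ - 3a + 1 = 0` or `a⁵ - 5a³ - a² + 3a + 1 = 0` are such fields `L`; the
  Galois group of the second polynomial is not solvable. -/
theorem result :
    (∀ (L : Type) [Field L] [NumberField L], OddAdmissible L →
      (∀ E : WeierstrassCurve L, GenCurve E → PartA E) ∧
      (1 < Module.finrank ℚ L →
        PartC L (1 - 1 / (6 - 2 / 2 ^ Module.finrank ℚ L)) (1 / 4 * ∏' k : ℕ, (1 - 1 / 2 ^ (2 * k + 1)))) ∧
      ∀ (M : Type) [Field M] [NumberField M] [Algebra L M], Module.finrank L M = 2 →
        (∃ r : M, r ^ 2 = -7) →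
          (∀ E : WeierstrassCurve M, GenCurve E → ResModTwo E ∧ PartB E) ∧
          PartC M ((1 - 1 / (6 - 2 / 2 ^ Module.finrank ℚ L)) ^ 2) (∏' k : ℕ, (1 - 1 / 2 ^ (k + 1)))) ∧
    (∀ (K : Type) [Field K] [NumberField K] (E : WeierstrassCurve K) (S : Finset ℕ),
      RSM.ModTwo E S → RSM.FiniteSha E → WeilRes.PartFormula E 2 S) ∧
    PartD := by
  have hG : ∀ (K : Type) [Field K] [NumberField K],
      (RSM.FiniteSha : WeierstrassCurve K → Prop) = FiniteSha := fun K _ _ =>
    funext fun E => propext (RSM.finiteSha_iff E)
  refine ⟨fun L _ _ hL => ⟨fun E hE => ?_, fun _ => ?_, fun M _ _ _ hM hr => ⟨fun E hE => ?_, ?_⟩⟩,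
    fun _ _ _ _ _ h hS => h.part hS, ⟨⟨XTS.families.1, TRP.two_Q, by rw [Module.finrank_self]; exact odd_one⟩,
      fun L _ _ h3 ha => ⟨(TRP.cubic_adm L h3 ha).1, (TRP.cubic_adm L h3 ha).2, by rw [h3]; decide⟩,
      fun L _ _ h5 ha => ⟨XTS.families.2.1 L h5 ha, TRP.quintic_two L h5 ha, by rw [h5]; decide⟩,
      XTS.families.2.2.1⟩⟩
  · obtain ⟨h1, h2⟩ := gen_L hL.adm hL.two hL.odd hE
    refine ⟨fun _ => RSM.ModTwo.of h1, fun M _ _ _ hM hr => ?_⟩
    obtain ⟨h4, h5⟩ := h2 M hM hr
    exact ⟨h4, by rw [RSM.finiteSha_iff, RSM.finiteSha_iff, h5]⟩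
  · unfold PartC
    rw [hG L]
    exact gen_densityL hL.adm hL.two hL.odd
  · refine ⟨RSM.ModTwo.of (gen_modTwo hL.adm hL.two hL.odd hM hr hE), fun w hw => ?_⟩
    rw [RSM.finiteSha_iff]
    exact gen_crit hL.adm hL.two hL.odd hM hr hE hw
  · unfold PartC
    rw [hG M]
    exact gen_density hL.adm hL.two hL.odd hM hr

end Pool.Agent.Results.MP_dfae13_nt.AllRestrictions
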